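import Pool.Agent.W205.K5.Stm
import Pool.Agent.Q113.XU.Stm

/-!
# Project XV: stability at the critical density for `k ≤ 5` (from project K5), and the window for all `k ≥ 3`

`Sys k w g`, `KK m`, `Th`, `TD`, `Wn`, `Gn` are in `W205/K5/Stm0.lean`, `Stm.lean`. The equality cases at the
crossing are the star law (`w r = (1-1/k)^(k-r)`, `g 0 = KK k`) and the clique law (`g 0 = 0`, `w r = 1` for
`r ≥ 1`); the slack in the proofs of project K5 shows that the deficit is at least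
`κ min (g 0) (w (k-1) - (1 - 1/k))`.

Every `S_X : Prop` is a statement; the docstring gives its proof.
-/

set_option autoImplicit false

namespace Pool.Agent.Q113.XV

open Finset Pool.Agent.W205.K5 Pool.Agent.Q113.XM Pool.Agent.Q113.XU Pool.Agent.W890.SF Pool.Agent.W593.IR
  Filter Topology

/-- one piece of the inequality at the crossing, with a gain. For `m = 1` (`g 0 ≤ KK 2 = 1/2`):
`w 0 ≥ g 0/2` (`S_CHORD`), and `add`, `jen`, `wk`, `gk` give `k - 1 ≤ g (k-1) ≤ g 0 + ∑_{1≤i≤k-1} w i`, so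
`∑_{1≤i≤k-1} (1 - w i) ≤ g 0` with all terms `≥ 0` (`w1`); hence
`Th - (1 - ρ^k) ≥ ρ^k g 0/2 - g 0 max_j C(k,j) (1-ρ)^(k-j) ρ^j = g 0 (ρ^k/2 - k ρ^(k-1) (1-ρ)) > 0`
(`2 k (1-ρ) < ρ` at the crossing; `k = 3, 4, 5`: `ρ = 0.8605.., 0.8927.., 0.91323..`). For `2 ≤ m ≤ k-2` the
deficit `Th - (1-ρ^k)` is bounded below by a positive constant (same proof as for `PIECE k m` in project K5, with
room), and `min (g 0) (w (k-1) - (1-1/k)) ≤ 1`. For `m = k-1`: in the proof of `PIECE k (k-1)` (see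
`W362/K5/P43.lean`, `W681/K5/P54.lean`, `W981/K5/P32.lean`) the deficit is a combination with POSITIVE
coefficients (bounded below, `ρ` is known precisely) of the slacks of the inequalities used (`add`, the lines, the
chord, `KK k - g 0`); `w (k-1) - (1-1/k)` is a linear combination of these slacks (all are `0` for the star
law), so it is at most `C · deficit`. -/
def PIECEs (k m : ℕ) : Prop := ∃ κ : ℝ, 0 < κ ∧ ∀ (w g : ℕ → ℝ), Sys k w g → KK m ≤ g 0 →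
  g 0 ≤ KK (m + 1) → ∀ ρ : ℝ, 0 < ρ → ρ < 1 → ρ ^ k + (1 - ρ / k) ^ k = 1 →
  1 - ρ ^ k + κ * min (g 0) (w (k - 1) - (1 - 1 / (k : ℝ))) ≤ Th k ρ (fun j => w (k - j))

/-- last piece with a gain: in the proof of `PLAST k` (`W152/K5/PLAST.lean`) the term `j = 1` has the slack
`k (1-ρ)^(k-1) ρ (w (k-1) - (1-1/k))`. -/
def PLASTs (k : ℕ) : Prop := ∃ κ : ℝ, 0 < κ ∧ ∀ (w g : ℕ → ℝ), Sys k w g → KK k ≤ g 0 →
  ∀ ρ : ℝ, 0 < ρ → ρ < 1 → ρ ^ k + (1 - ρ / k) ^ k = 1 →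
  1 - ρ ^ k + κ * min (g 0) (w (k - 1) - (1 - 1 / (k : ℝ))) ≤ Th k ρ (fun j => w (k - j))

/-- PURs: the inequality at the crossing with a gain; from the pieces (`KK` is monotone, `KK 1 = 0 ≤ g 0`), as in
`W170/K5/PUR.lean`; `κ` is the minimum (`min (g 0) (w (k-1) - (1 - 1/k)) ≥ 0` since `gp`, and
`1 - 1/k ≤ w (k-1)` from `jen (k-1)` and `top (k-1)`: `k - 1 ≤ g (k-1) ≤ k w (k-1)`). -/
def PURs (k : ℕ) : Prop := ∃ κ : ℝ, 0 < κ ∧ ∀ (w g : ℕ → ℝ), Sys k w g →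
  ∀ ρ : ℝ, 0 < ρ → ρ < 1 → ρ ^ k + (1 - ρ / k) ^ k = 1 →
  1 - ρ ^ k + κ * min (g 0) (w (k - 1) - (1 - 1 / (k : ℝ))) ≤ Th k ρ (fun j => w (k - j))

/-- PUR: pieces give `PURs` for `k = 3, 4, 5`. -/
def S_PUR : Prop := (PIECEs 3 1 → PIECEs 3 2 → PLASTs 3 → PURs 3) ∧
  (PIECEs 4 1 → PIECEs 4 2 → PIECEs 4 3 → PLASTs 4 → PURs 4) ∧
  (PIECEs 5 1 → PIECEs 5 2 → PIECEs 5 3 → PIECEs 5 4 → PLASTs 5 → PURs 5)

/-- TWOs: `S_SYS` with `g 0 = k Gn a b q k`, `w (k-1) = Wn a b q 1`, as in `W24/K5/TWO.lean`. In the constant case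
(`Wn k = 0`, `Wn j = 1`) `Th = 1 - ρ^k` and `Gn a b q k = 0` (every term of `Gn` is `≤` a multiple of the
corresponding term of `Wn`), so the minimum is `0`. -/
def TWOs (k : ℕ) : Prop := ∃ κ : ℝ, 0 < κ ∧ ∀ a b q : ℕ → ℝ, TD k a b q → ∀ ρ : ℝ, 0 < ρ → ρ < 1 →
  ρ ^ k + (1 - ρ / k) ^ k = 1 →
  1 - ρ ^ k + κ * min (k * Gn a b q k) (Wn a b q 1 - (1 - 1 / (k : ℝ))) ≤ Th k ρ (Wn a b q)

def S_TWS : Prop := ∀ k : ℕ, 2 ≤ k → PURs k → TWOs k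

/-- FTG (Jensen): `E (1 - S)^+ ≥ E (1/k - X_i)^+ = q_i (1 - q_i) b_i` (given `X_i`, the mean of the other
variables is `(k-1)/k`; `1/k - a_i = b_i q_i`). -/
def S_FTG : Prop := ∀ k : ℕ, 2 ≤ k → ∀ a b q : ℕ → ℝ, TD k a b q → ∀ i < k,
  q i * (1 - q i) * b i ≤ Gn a b q k

/-- the i.i.d. form with a gain -/
def IIDs (k : ℕ) : Prop := ∃ κ : ℝ, 0 < κ ∧ ∀ (V : Type) [Fintype V] [Nonempty V] (y : V → ℝ),
  (∀ v, 0 ≤ y v) → (k : ℝ) * ∑ v, y v = (Fintype.card V : ℝ) → ∀ ρ : ℝ, 0 < ρ → ρ < 1 →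
  ρ ^ k + (1 - ρ / k) ^ k = 1 →
  1 - ρ ^ k + κ * min ((∑ v, |y v - 1 / (k : ℝ)|) / (Fintype.card V : ℝ))
      ((NL y 1 : ℝ) / (Fintype.card V : ℝ) - (1 - 1 / (k : ℝ))) ≤
    Th k ρ (fun j => (NL y j : ℝ) / (Fintype.card V : ℝ) ^ j)

/-- IDS. As in `W654/K5/TWOIID.lean` (the constant case is clear). Otherwise `S_MIX2`: two-point laws `τ_p` with
weights `π_p`; `D = Th - (1-ρ^k)` is the mean over tuples `p : Fin k → P` of the deficits, each at least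
`κ min (k Gn) (Wn 1 - (1-1/k))`. Put `f_p = q_p (1-q_p) b_p`, `h_p = Wn 1 - (1 - 1/k)` (for the first variable
`τ_p`), so `0 ≤ h_p ≤ 1` (Markov: the mean is `1/k`), `0 ≤ f_p ≤ 1`; by `FTG` for the second variable
`D ≥ κ ∑_{p,p'} π_p π_p' min f_p' h_p`. Put `c1 = 1/(8k)`. For every `p`, `f_p ≥ c1` or `h_p ≥ c1`: if `h_p < c1`
then the upper value is `≥ 1` (as `a_p ≤ 1/k < 1`) and `q_p ≥ 1/k - c1`, `b_p ≥ 1 - 1/k`,
`q_p ≤ 1/(k-1) ≤ 1/2`. If `π{f ≥ c1} ≥ 1/2`: `D ≥ κ (1/2) ∑ π_p min c1 h_p ≥ κ (c1/2) ∑ π_p h_p` and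
`∑ π_p h_p = NL y 1/|V| - (1-1/k)`. Otherwise `π{h ≥ c1} ≥ 1/2` and `D ≥ κ (c1/2) ∑ π_p f_p`,
`∑ π_p f_p = (1/2) (∑ |y v - 1/k|)/|V|` (`E|X - 1/k| = 2 q (1-q) b` for a two-point law with mean `1/k`). -/
def S_IDS : Prop := ∀ k : ℕ, 3 ≤ k → TWOs k → IIDs k

/-- NEC5: `XM.S_NEC` with a cover of small support: in the proof of `S_NEC` (`Q150/XM/NEC.lean`) replace `y` by the
one given by `S_MINC` for the edges of `F` with `1 ≤ ∑ y` (they are still covered, so `S_FAC` applies as before; an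
edge of `F` with new sum `< 1` had old sum `< 1`). -/
def S_NEC5 : Prop := ∀ k : ℕ, 2 ≤ k → ∀ x0 η δ c1 : ℝ, 0 < x0 → 0 < η → 0 < δ → 0 < c1 → ∃ n0 : ℕ,
  ∀ n : ℕ, n0 ≤ n → ∀ F : Finset (Finset (Fin n)), Unif k F → ∀ s : ℕ, x0 * n ≤ s → k * (s + 1) ≤ n →
    ¬ HasM F (s + 1) →
    max (n.choose k - (n - s).choose k) ((k * (s + 1) - 1).choose k) ≤ F.card →
    ∃ (y : Fin n → ℝ) (x : ℝ), (∀ v, 0 ≤ y v) ∧ ∑ v, y v ≤ x * n ∧ (s : ℝ) ≤ x * n ∧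
      x * n ≤ s + δ * n ∧ (mv k x - η) * (n : ℝ) ^ k ≤ (NG y k : ℝ) ∧
      ((F.filter (fun e => ∑ v ∈ e, y v < 1)).card : ℝ) ≤ c1 * (n : ℝ) ^ k ∧
      ((univ.filter (fun v => y v ≠ 0)).card : ℝ) ≤ k * ∑ v, y v

/-- structure in the window -/
def WSC (k : ℕ) : Prop := ∀ c : ℝ, Crt k c → ∀ γ : ℝ, 0 < γ → ∃ ε : ℝ, 0 < ε ∧
  ∃ n0 : ℕ, ∀ n : ℕ, n0 ≤ n → ∀ F : Finset (Finset (Fin n)), Unif k F → ∀ s : ℕ,
    |(s : ℝ) - c * n| ≤ ε * n → k * (s + 1) ≤ n → ¬ HasM F (s + 1) →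
    max (n.choose k - (n - s).choose k) ((k * (s + 1) - 1).choose k) ≤ F.card →
    (s : ℝ) - γ * n ≤ ((univ.filter (fun v : Fin n =>
      (1 - γ) * (((n - 1).choose (k - 1) : ℕ) : ℝ) ≤ (dg F v : ℝ))).card : ℝ) ∨
    ∃ T : Finset (Fin n), (k : ℝ) * s - γ * n ≤ (T.card : ℝ) ∧
      ∀ v ∈ T, (ms k F T v : ℝ) ≤ γ * (n : ℝ) ^ (k - 1)

/-- CTB (continuity of `Th` in `ρ`): for a sequence `u` with values in `[0,1]`, `|Th k ρ u - Th k ρ' u| ≤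
k 2^k |ρ - ρ'|` or any other constant (`x ↦ (1-x)^i x^j` has derivative at most `k` on `[0,1]`). -/
def S_CTB : Prop := ∀ k : ℕ, ∃ C : ℝ, 0 < C ∧ ∀ (u : ℕ → ℝ), (∀ j, 0 ≤ u j ∧ u j ≤ 1) →
  ∀ ρ ρ' : ℝ, 0 ≤ ρ → ρ ≤ 1 → 0 ≤ ρ' → ρ' ≤ 1 → |Th k ρ u - Th k ρ' u| ≤ C * |ρ - ρ'|

/-- RST (restriction to the support): if `y` vanishes outside `U` then the fraction of `k`-tuples of `V` with sum
`< 1` is `Th k (|U|/|V|)` of the fractions of `j`-tuples of `U` with sum `< 1` (sort the tuples by the set of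
coordinates in `U`). -/
def S_RST : Prop := ∀ (V : Type) [Fintype V] [DecidableEq V] [Nonempty V] (U : Finset V) (y : V → ℝ) (k : ℕ),
  U.Nonempty → (∀ v, v ∉ U → y v = 0) →
  (NL y k : ℝ) / (Fintype.card V : ℝ) ^ k =
    Th k ((U.card : ℝ) / (Fintype.card V : ℝ))
      (fun j => (NL (fun v : U => y v) j : ℝ) / ((U.card : ℝ)) ^ j)

/-- WS5. `NEC5` with `x0 = c/2`, small `η`, `δ`, `c1`: `y`, `x` with `|x - c| ≤ ε + δ`. Let
`U ⊇ {v : y v ≠ 0}` with `|U| = ⌈k ∑ y⌉` (possible: the support has at most `k ∑ y` elements, and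
`k ∑ y ≤ k x n < n`); raise `y` at one vertex of `U` by `(|U| - k ∑ y)/k ≤ 1/k` to get `y*` with
`k ∑_U y* = |U|`; `NG y* k ≥ NG y k`. By `LMW` for the uniform law on `Fin n` (`BRG`) with mean
`|U|/(k n)`: `mv k (|U|/(kn)) ≥ NG y k/n^k ≥ mv k x - η`, and `|U| ≤ k x n + 1`, so `|U|/n` is close to `k c =: ρ`
(`mv` is strictly increasing, `CRF`). `RST`, `CTB`: `Th k ρ (NL y*|_U j/|U|^j) ≤ 1 - ρ^k + η'`. `IIDs` for `U`:
either `∑_U |y* - 1/k| ≤ η'' |U|`: then at most `η'' n/γ' + 1` vertices have `γ' < y v`, `γ' < |y v - 1/k|`, and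
`S_TYC` gives the second alternative; or at least `|U|/k - η'' |U|` vertices of `U` have `y* ≥ 1`, and as
`∑_U y* = |U|/k` the others have total weight at most `η'' |U|`, so at most `η'' n/γ' + 1` vertices have
`γ' < y v < 1 - γ'`, and `S_DIT` gives the first one. (`∑ y ≤ x n ≤ s + δ n`.) -/
def S_WS5 : Prop := ∀ k : ℕ, 3 ≤ k → LMW k → IIDs k → WSC k

/-- the window statement -/
def WND (k : ℕ) : Prop := ∀ c : ℝ, Crt k c → ∃ ε : ℝ, 0 < ε ∧ ∃ n0 : ℕ,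
  ∀ n : ℕ, n0 ≤ n → ∀ s : ℕ, |(s : ℝ) - c * n| ≤ ε * n → k * (s + 1) ≤ n →
  ∀ F : Finset (Finset (Fin n)), Unif k F →
    max (n.choose k - (n - s).choose k) ((k * (s + 1) - 1).choose k) < F.card → HasM F (s + 1)

/-- WSX: as `XU.S_XMW`, from the structure statement `WSC k` (`SFN`, `CLQ`). -/
def S_WSX : Prop := ∀ k : ℕ, 3 ≤ k → WSC k → WND k

/-- XAX: `XMC` outside the window, `WND` inside (`CRU`). -/
def S_XAX : Prop := ∀ k : ℕ, 3 ≤ k → LMW k → WND k → XALL k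

end Pool.Agent.Q113.XV
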